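import Pool.Agent.H98.Code.Defs

set_option autoImplicit false

/-!
Code form of the theorem on short circuits (MP_a46c6f_co): preparations.
-/

namespace Pool.Agent.H19.G5

open Pool.Agent.H98.Code

variable {V : Type} [Fintype V] [DecidableEq V]

/-- words with a prescribed even set of letters exist -/
theorem exists_first {L : Submodule (ZMod 2) (V → K)} (hL : IsCode L)
    (hz : ∀ u ∈ L, ZOnly u → u = 0 ∨ u = fun _ => z) (s : V → ZMod 2) (hs : ∑ i, s i = 0) :
    ∃ u ∈ L, ∀ i, (u i).1 = s i := by
  classical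
  let F : (V → K) →ₗ[ZMod 2] (V → ZMod 2) :=
    { toFun := fun u i => (u i).1
      map_add' := fun _ _ => rfl
      map_smul' := fun _ _ => rfl }
  by_contra hcon
  have hn : s ∉ L.map F := by
    rintro ⟨u, hu, hus⟩
    exact hcon ⟨u, hu, fun i => congrFun hus i⟩
  obtain ⟨φ, hφs, hφ⟩ := Submodule.exists_le_ker_of_notMem hn
  have hexp : ∀ x : V → ZMod 2, φ x = ∑ i, x i * φ (fun j => if i = j then 1 else 0) := by
    intro x
    have h := LinearMap.pi_apply_eq_sum_univ φ x
    rw [h]
    rfl
  have ht : (fun i => ((0 : ZMod 2), φ (fun j => if i = j then 1 else 0))) ∈ L := by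
    apply hL.max
    intro v hv
    have h0 : φ (F v) = 0 := hφ ⟨v, hv, rfl⟩
    rw [hexp] at h0
    unfold form
    calc ∑ i, kf ((0 : ZMod 2), φ (fun j => if i = j then 1 else 0)) (v i)
        = ∑ i, (F v) i * φ (fun j => if i = j then 1 else 0) := by
          apply Finset.sum_congr rfl
          intro i _
          show (0 : ZMod 2) * (v i).2 + φ (fun j => if i = j then 1 else 0) * (v i).1 = (v i).1 * _
          ring
      _ = 0 := h0
  rcases hz _ ht (fun _ => rfl) with h | h
  · apply hφs
    rw [hexp]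
    apply Finset.sum_eq_zero
    intro i _
    have := congrArg Prod.snd (congrFun h i)
    simp only [Pi.zero_apply, Prod.snd_zero] at this
    rw [this, mul_zero]
  · apply hφs
    have hsum : φ s = ∑ i, s i := by
      rw [hexp]
      apply Finset.sum_congr rfl
      intro i _
      have := congrArg Prod.snd (congrFun h i)
      simp only [z] at this
      rw [this, mul_one]
    rw [hsum, hs]

/-- the form of two words which are compatible except at one place -/
theorem form_one (u v : V → K) (a : V) (h : ∀ i, i ≠ a → kf (u i) (v i) = 0) :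
    form u v = kf (u a) (v a) := by
  unfold form
  exact Finset.sum_eq_single_of_mem a (Finset.mem_univ a) (fun i _ hi => h i hi)

/-- the form of two words which are compatible except at three places -/
theorem form_three (u v : V → K) (a b c : V) (hab : a ≠ b) (hac : a ≠ c) (hbc : b ≠ c)
    (h : ∀ i, i ≠ a → i ≠ b → i ≠ c → kf (u i) (v i) = 0) :
    form u v = kf (u a) (v a) + kf (u b) (v b) + kf (u c) (v c) := by
  unfold form
  rw [← Finset.sum_subset (Finset.subset_univ {a, b, c})]
  · rw [Finset.sum_insert (by simp [hab, hac]), Finset.sum_insert (by simp [hbc]),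
      Finset.sum_singleton, add_assoc]
  · intro i _ hi
    simp only [Finset.mem_insert, Finset.mem_singleton, not_or] at hi
    exact h i hi.1 hi.2.1 hi.2.2

/-- a splitting, place by place -/
theorem Splits.cases {L : Submodule (ZMod 2) (V → K)} {u : V → K} {b : V} (h : Splits L u b) :
    ∃ c₁ ∈ L, ∃ c₂ ∈ L, c₁ b = z ∧ c₂ b = z ∧ u b = 0 ∧
      ∀ i, i ≠ b → (c₁ i = 0 ∧ c₂ i = u i) ∨ (c₁ i = u i ∧ c₂ i = 0) := by
  obtain ⟨c₁, h₁, c₂, h₂, hs, hb1, hb2, hd⟩ := h
  refine ⟨c₁, h₁, c₂, h₂, hb1, hb2, ?_, ?_⟩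
  · rw [← hs, Pi.add_apply, hb1, hb2]
    decide
  · intro i hi
    rcases hd i hi with h | h
    · left
      exact ⟨h, by rw [← hs, Pi.add_apply, h, zero_add]⟩
    · right
      exact ⟨by rw [← hs, Pi.add_apply, h, add_zero], h⟩

/-- the number of places is odd -/
theorem card_one {L : Submodule (ZMod 2) (V → K)} (hL : IsCode L) [Nonempty V]
    (hz : ∀ u ∈ L, ZOnly u → u = 0 ∨ u = fun _ => z) (hC : Critical L) :
    ∑ _i : V, (1 : ZMod 2) = 1 := by
  have key : ∀ a : ZMod 2, a ≠ 0 → a = 1 := by decide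
  apply key
  intro h0
  obtain ⟨u, hu, h1⟩ := exists_first hL hz (fun _ => 1) h0
  obtain ⟨v⟩ := ‹Nonempty V›
  have hne : u ≠ 0 := by
    intro h
    have := h1 v
    rw [h] at this
    simp at this
  have hf : ZFree u := by
    intro i hi
    have := h1 i
    rw [hi] at this
    simp [z] at this
  obtain ⟨g, hg⟩ := hC u hu hne hf
  obtain ⟨_, _, _, _, _, _, hg0, _⟩ := Splits.cases hg
  have := h1 g
  rw [hg0] at this
  simp at this

/-- the word with the letters exactly off `f` -/
theorem exists_off {L : Submodule (ZMod 2) (V → K)} (hL : IsCode L)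
    (hz1 : (fun _ => z) ∈ L) (hz : ∀ u ∈ L, ZOnly u → u = 0 ∨ u = fun _ => z)
    (hC : Critical L) (f : V) : ∃ u ∈ L, u f = 0 ∧ ∀ i, i ≠ f → (u i).1 = 1 := by
  haveI : Nonempty V := ⟨f⟩
  have hc := card_one hL hz hC
  have hs : ∑ i, (if i = f then (0 : ZMod 2) else 1) = 0 := by
    have h1 : ∑ i : V, (if i = f then (0 : ZMod 2) else 1)
        = ∑ i : V, ((1 : ZMod 2) + (if i = f then 1 else 0)) := by
      apply Finset.sum_congr rfl
      intro i _
      split_ifs <;> decide
    rw [h1, Finset.sum_add_distrib, hc, Finset.sum_ite_eq' Finset.univ f]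
    simp only [Finset.mem_univ, if_true]
    decide
  obtain ⟨u, hu, h1⟩ := exists_first hL hz _ hs
  have hf : (u f).1 = 0 := by rw [h1 f]; simp
  have hi : ∀ i, i ≠ f → (u i).1 = 1 := fun i hi => by rw [h1 i]; simp [hi]
  have key : ∀ a : K, a.1 = 0 → a = 0 ∨ a = z := by decide
  rcases key _ hf with h | h
  · exact ⟨u, hu, h, hi⟩
  · refine ⟨u + fun _ => z, L.add_mem hu hz1, ?_, ?_⟩
    · rw [Pi.add_apply, h]
      exact (by decide : z + z = 0)
    · intro i hif
      rw [Pi.add_apply, Prod.fst_add, hi i hif]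
      decide

end Pool.Agent.H19.G5
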