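import Pool.Agent.H19.G5.Main

set_option autoImplicit false

/-!
Code form of the theorem on short circuits (MP_a46c6f_co): steps 3 to 7.
-/

namespace Pool.Agent.H19.G5

open Pool.Agent.H98.Code

variable {V : Type} [Fintype V] [DecidableEq V]

theorem kHz : ∀ a : K, a.1 = 1 → kf (a + z) a = 1 := by decide
theorem kzH : ∀ a : K, a.1 = 1 → kf (z + a) a = 1 := by decide

/-- Step 3: the bridge `h2` and the word `w` -/
theorem step3 {L : Submodule (ZMod 2) (V → K)} (hL : IsCode L)
    (hC : Critical L) {e f g h : V} (hef : e ≠ f) (heg : e ≠ g) (hfg : f ≠ g)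
    (hhe : h ≠ e) (hhf : h ≠ f) (hhg : h ≠ g)
    {p : V → K} (hp : p ∈ L) (pe : p e = z) (pf : (p f).1 = 1) (pg : (p g).1 = 1)
    (p0 : ∀ i, i ≠ e → i ≠ f → i ≠ g → p i = 0)
    {H c u : V → K} (hc : c ∈ L) (hu : u ∈ L) (H1 : ∀ i, i ≠ f → (H i).1 = 1)
    (cf : c f = z) (ce : c e = H e) (cg : c g = 0) (ch : c h = 0)
    (ci : ∀ i, i ≠ f → c i = 0 ∨ c i = H i)
    (ue : u e = H e) (uf : u f = 0) (ug : u g = z) (uh : u h = H h + z)
    (ui : ∀ i, i ≠ e → i ≠ f → i ≠ g → i ≠ h → (u i = 0 ∧ c i = H i) ∨ u i = H i) :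
    ∃ h2, h2 ≠ e ∧ h2 ≠ f ∧ h2 ≠ g ∧ h2 ≠ h ∧ u h2 = 0 ∧ c h2 = H h2 ∧
      ∃ w ∈ L, w h2 = z ∧ w e = 0 ∧ w f = p f ∧ w g = 0 ∧ (w h = 0 ∨ w h = H h + z) ∧
      ∀ i, i ≠ e → i ≠ f → i ≠ g → i ≠ h → i ≠ h2 → w i = 0 ∨ w i = u i := by
  have ve : (u + p) e = H e + z := by rw [Pi.add_apply, ue, pe]
  have vf : (u + p) f = p f := by rw [Pi.add_apply, uf, zero_add]
  have vg : (u + p) g = z + p g := by rw [Pi.add_apply, ug]
  have vi : ∀ i, i ≠ e → i ≠ f → i ≠ g → (u + p) i = u i := fun i h1 h2 h3 => by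
    rw [Pi.add_apply, p0 i h1 h2 h3, add_zero]
  have ve1 : ((u + p) e).1 = 1 := by
    rw [ve, Prod.fst_add, H1 e hef]; decide
  have vf1 : ((u + p) f).1 = 1 := by rw [vf]; exact pf
  have vg1 : ((u + p) g).1 = 1 := by
    rw [vg, Prod.fst_add, pg]; decide
  have vh1 : ((u + p) h).1 = 1 := by
    rw [vi h hhe hhf hhg, uh, Prod.fst_add, H1 h hhf]; decide
  have hzf : ZFree (u + p) := by
    intro i
    by_cases h1 : i = e
    · rw [h1]; exact z_ne _ ve1
    by_cases h2 : i = f
    · rw [h2]; exact z_ne _ vf1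
    by_cases h3 : i = g
    · rw [h3]; exact z_ne _ vg1
    by_cases h4 : i = h
    · rw [h4]; exact z_ne _ vh1
    · rw [vi i h1 h2 h3]
      rcases ui i h1 h2 h3 h4 with ⟨t, _⟩ | t
      · rw [t]; decide
      · rw [t]; exact z_ne _ (H1 i h2)
  have hne : u + p ≠ 0 := by
    intro x
    have := vf1
    rw [x] at this
    simp at this
  obtain ⟨k, hk⟩ := hC (u + p) (L.add_mem hu hp) hne hzf
  obtain ⟨d₁, hd1, d₂, hd2, h1, h2, h0, hdd⟩ := Splits.cases hk
  have hke : k ≠ e := by
    intro x; rw [x] at h0; exact ne0 _ ve1 h0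
  have hkf : k ≠ f := by
    intro x; rw [x] at h0; exact ne0 _ vf1 h0
  have hkg : k ≠ g := by
    intro x; rw [x] at h0; exact ne0 _ vg1 h0
  have hkh : k ≠ h := by
    intro x; rw [x] at h0; exact ne0 _ vh1 h0
  have huk : u k = 0 := by rw [← vi k hke hkf hkg]; exact h0
  have hck : c k = H k := by
    rcases ui k hke hkf hkg hkh with ⟨_, t⟩ | t
    · exact t
    · exact absurd (t.symm.trans huk) (ne0 _ (H1 k hkf))
  have pair1 : ∀ d ∈ L, d k = z → (∀ i, i ≠ k → d i = 0 ∨ d i = (u + p) i) →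
      kf z (H k) + kf (d f) z + kf (d e) (H e) = 0 := by
    intro d hd dk hdi
    have hpair := hL.iso d hd c hc
    rw [form_three d c k f e hkf hke (Ne.symm hef), dk, hck, cf, ce] at hpair
    · exact hpair
    · intro i a1 a2 a3
      by_cases a4 : i = g
      · rw [a4, cg, k0_right]
      by_cases a5 : i = h
      · rw [a5, ch, k0_right]
      · rcases ci i a2 with y | y
        · rw [y, k0_right]
        · rcases hdi i a1 with t | t
          · rw [t, k0_left]
          · rw [t, vi i a3 a2 a4, y]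
            rcases ui i a3 a2 a4 a5 with ⟨s, _⟩ | s
            · rw [s, k0_left]
            · rw [s, k_self]
  have main : ∀ d ∈ L, d k = z → d f = p f → d e = 0 →
      (∀ i, i ≠ k → d i = 0 ∨ d i = (u + p) i) →
      ∃ h2, h2 ≠ e ∧ h2 ≠ f ∧ h2 ≠ g ∧ h2 ≠ h ∧ u h2 = 0 ∧ c h2 = H h2 ∧
      ∃ w ∈ L, w h2 = z ∧ w e = 0 ∧ w f = p f ∧ w g = 0 ∧ (w h = 0 ∨ w h = H h + z) ∧
      ∀ i, i ≠ e → i ≠ f → i ≠ g → i ≠ h → i ≠ h2 → w i = 0 ∨ w i = u i := by
    intro d hd dk df de hdi
    refine ⟨k, hke, hkf, hkg, hkh, huk, hck, d, hd, dk, de, df, ?_, ?_, ?_⟩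
    · have hpair := hL.iso d hd p hp
      rw [form_three d p e f g hef heg hfg (fun i h1 h2 h3 => by rw [p0 i h1 h2 h3, k0_right]),
        de, k0_left, df, k_self, zero_add, zero_add] at hpair
      rcases hdi g (Ne.symm hkg) with t | t
      · exact t
      · rw [t, vg, kzH _ pg] at hpair
        exact absurd hpair (by decide)
    · have := hdi h (Ne.symm hkh)
      rw [vi h hhe hhf hhg, uh] at this
      exact this
    · intro i a1 a2 a3 _ a5
      rw [← vi i a1 a2 a3]
      exact hdi i a5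
  have hz1' : kf z (H k) = 1 := kz_left _ (H1 k hkf)
  have heH : kf (H e + z) (H e) = 1 := kHz _ (H1 e hef)
  have hp1 := pair1 d₁ hd1 h1 (fun i hi => (or_of_cases (hdd i hi)).1)
  rcases hdd e (Ne.symm hke) with ⟨x1, x2⟩ | ⟨x1, x2⟩
  · rw [x1, k0_left, hz1', kz_right] at hp1
    rcases hdd f (Ne.symm hkf) with ⟨y1, y2⟩ | ⟨y1, y2⟩
    · rw [y1] at hp1
      exact absurd hp1 (by decide)
    · exact main d₁ hd1 h1 (y1.trans vf) x1 (fun i hi => (or_of_cases (hdd i hi)).1)
  · rw [x1, ve, heH, hz1', kz_right] at hp1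
    rcases hdd f (Ne.symm hkf) with ⟨y1, y2⟩ | ⟨y1, y2⟩
    · exact main d₂ hd2 h2 (y2.trans vf) x2 (fun i hi => (or_of_cases (hdd i hi)).2)
    · rw [y1, vf1] at hp1
      exact absurd hp1 (by decide)

/-- the letters of `u` and `T` at a place different from `g` -/
def Good (a b : K) : Prop := a ≠ z ∧ b ≠ z ∧ kf a b = 0 ∧ (a ≠ 0 ∨ b ≠ 0)

instance (a b : K) : Decidable (Good a b) := by
  unfold Good; infer_instance

/-- Step 5 -/
theorem step5 {L : Submodule (ZMod 2) (V → K)} (hL : IsCode L)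
    (hC : Critical L) {e f g : V} (hef : e ≠ f) (heg : e ≠ g) (hfg : f ≠ g)
    {p u T : V → K} (hp : p ∈ L) (hu : u ∈ L) (hT : T ∈ L) (pg : (p g).1 = 1)
    (p0 : ∀ i, i ≠ e → i ≠ f → i ≠ g → p i = 0)
    (Tg : T g = 0) (good : ∀ i, i ≠ g → Good (u i) (T i))
    {X : V → K} (hX : X ∈ L) (Xz : ZFree X) (Xe : X e = 0) (Xf : X f = 0) (Xg : X g = 0)
    (Xu : ∀ i, i ≠ g → kf (X i) (u i) = 0) (XT : ∀ i, i ≠ g → kf (X i) (T i) = 0) : X = 0 := by
  by_contra hne
  obtain ⟨b, hb⟩ := hC X hX hne Xz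
  obtain ⟨x₁, hx1, x₂, hx2, h1, h2, h0, hxx⟩ := Splits.cases hb
  by_cases hbg : b = g
  · have e1 : x₁ e = 0 := (or_zero (hxx e (by rw [hbg]; exact heg)) Xe).1
    have f1 : x₁ f = 0 := (or_zero (hxx f (by rw [hbg]; exact hfg)) Xf).1
    have hpair := hL.iso x₁ hx1 p hp
    rw [form_three x₁ p e f g hef heg hfg (fun i h1 h2 h3 => by rw [p0 i h1 h2 h3, k0_right]),
      e1, f1, k0_left, k0_left, ← hbg, h1, hbg, kz_left _ pg] at hpair
    exact absurd hpair (by decide)
  · have g1 : x₁ g = 0 := (or_zero (hxx g (Ne.symm hbg)) Xg).1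
    have hg := good b hbg
    by_cases hub : u b = 0
    · have hTb : T b ≠ 0 := by
        rcases hg.2.2.2 with t | t
        · exact absurd hub t
        · exact t
      have hpair := hL.iso x₁ hx1 T hT
      rw [form_one x₁ T b, h1, kz_left _ (letter _ hg.2.1 hTb)] at hpair
      · exact absurd hpair (by decide)
      · intro i hi
        by_cases hig : i = g
        · rw [hig, Tg, k0_right]
        · rcases (or_of_cases (hxx i hi)).1 with t | t
          · rw [t, k0_left]
          · rw [t]; exact XT i hig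
    · have hpair := hL.iso x₁ hx1 u hu
      rw [form_one x₁ u b, h1, kz_left _ (letter _ hg.1 hub)] at hpair
      · exact absurd hpair (by decide)
      · intro i hi
        by_cases hig : i = g
        · rw [hig, g1, k0_left]
        · rcases (or_of_cases (hxx i hi)).1 with t | t
          · rw [t, k0_left]
          · rw [t]; exact Xu i hig

theorem good_or : ∀ a b t : K, Good a b → (t = 0 ∨ t = b) →
    a + t ≠ z ∧ kf (a + t) a = 0 ∧ kf (a + t) b = 0 := by decide

/-- Step 6: `T` has letters exactly off `g` -/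
theorem step6 {L : Submodule (ZMod 2) (V → K)} (hL : IsCode L)
    (hC : Critical L) {e f g : V} (hef : e ≠ f) (heg : e ≠ g) (hfg : f ≠ g)
    {p u T : V → K} (hp : p ∈ L) (hu : u ∈ L) (hT : T ∈ L) (pe : p e = z) (pf : (p f).1 = 1)
    (pg : (p g).1 = 1) (p0 : ∀ i, i ≠ e → i ≠ f → i ≠ g → p i = 0)
    (uf : u f = 0) (ug : u g = z) (Te : T e = u e) (Tf : T f = z + p f)
    (Tg : T g = 0) (good : ∀ i, i ≠ g → Good (u i) (T i)) :
    ∀ i, i ≠ g → (T i).1 = 1 := by
  have Te1 : (T e).1 = 1 := by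
    have hg := good e heg
    rw [Te] at hg ⊢
    apply letter _ hg.1
    rcases hg.2.2.2 with t | t <;> exact t
  have Tf1 : (T f).1 = 1 := by rw [Tf, Prod.fst_add, pf]; decide
  have hne : T ≠ 0 := by
    intro x
    rw [x] at Te1
    simp at Te1
  have hzf : ZFree T := by
    intro i
    by_cases h : i = g
    · rw [h, Tg]; decide
    · exact (good i h).2.1
  obtain ⟨b, hb⟩ := hC T hT hne hzf
  obtain ⟨t₁, ht1, t₂, ht2, h1, h2, h0, htt⟩ := Splits.cases hb
  have hbg : b = g := by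
    by_contra hbg
    have g1 : t₁ g = 0 := (or_zero (htt g (Ne.symm hbg)) Tg).1
    have hg := good b hbg
    have hub : u b ≠ 0 := by
      rcases hg.2.2.2 with t | t
      · exact t
      · exact absurd h0 t
    have hpair := hL.iso t₁ ht1 u hu
    rw [form_one t₁ u b, h1, kz_left _ (letter _ hg.1 hub)] at hpair
    · exact absurd hpair (by decide)
    · intro i hi
      by_cases hig : i = g
      · rw [hig, g1, k0_left]
      · rcases (or_of_cases (htt i hi)).1 with t | t
        · rw [t, k0_left]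
        · rw [t, kcomm]; exact (good i hig).2.2.1
  have main : ∀ t ∈ L, t g = z → t e = T e → t f = 0 → (∀ i, i ≠ g → t i = 0 ∨ t i = T i) →
      ∀ i, i ≠ g → (T i).1 = 1 := by
    intro t ht tg te tf hti
    have hX : u + t = 0 := by
      apply step5 hL hC hef heg hfg hp hu hT pg p0 Tg good (L.add_mem hu ht)
      · intro i
        by_cases h : i = g
        · rw [h, Pi.add_apply, ug, tg]
          exact (by decide : z + z ≠ z)
        · exact (good_or _ _ _ (good i h) (hti i h)).1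
      · rw [Pi.add_apply, te, Te]
        exact (by decide : ∀ a : K, a + a = 0) _
      · rw [Pi.add_apply, uf, tf, add_zero]
      · rw [Pi.add_apply, ug, tg]
        exact (by decide : z + z = 0)
      · intro i h
        exact (good_or _ _ _ (good i h) (hti i h)).2.1
      · intro i h
        exact (good_or _ _ _ (good i h) (hti i h)).2.2
    intro i hi
    have hg := good i hi
    apply letter _ hg.2.1
    intro hTi
    have h3 : t i = 0 := by
      rcases hti i hi with s | s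
      · exact s
      · rw [s, hTi]
    have h4 : u i = 0 := by
      have := congrFun hX i
      rw [Pi.add_apply, h3, add_zero] at this
      exact this
    rcases hg.2.2.2 with s | s
    · exact s h4
    · exact s hTi
  subst hbg
  have hTf : kf (T f) (p f) = 1 := by rw [Tf]; exact kzH _ pf
  have hpair := hL.iso t₁ ht1 p hp
  rw [form_three t₁ p e f b hef heg hfg (fun i h1 h2 h3 => by rw [p0 i h1 h2 h3, k0_right]),
    pe, kz_right, h1, kz_left _ pg] at hpair
  rcases htt e heg with ⟨x1, x2⟩ | ⟨x1, x2⟩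
  · rcases htt f hfg with ⟨y1, y2⟩ | ⟨y1, y2⟩
    · rw [x1, y1, k0_left] at hpair
      exact absurd hpair (by decide)
    · exact main t₂ ht2 h2 x2 y2 (fun i hi => (or_of_cases (htt i hi)).2)
  · rcases htt f hfg with ⟨y1, y2⟩ | ⟨y1, y2⟩
    · exact main t₁ ht1 h1 x1 y1 (fun i hi => (or_of_cases (htt i hi)).1)
    · rw [x1, y1, Te1, hTf] at hpair
      exact absurd hpair (by decide)

theorem kk (a : K) : a + a = 0 := by revert a; decide

theorem d_cases (H c d : K) (_hH : H.1 = 1) (hc : c = 0 ∨ c = H) (hd : d = 0 ∨ d = c) :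
    (H + d = 0 ∧ c = H) ∨ H + d = H := by
  rcases hd with rfl | rfl
  · right; rw [add_zero]
  · rcases hc with rfl | rfl
    · right; rw [add_zero]
    · left; exact ⟨kk _, rfl⟩

theorem good_a : ∀ H : K, H.1 = 1 → Good H 0 := by decide
theorem good_b : ∀ H : K, H.1 = 1 → Good H H := by decide
theorem good_c : ∀ H : K, H.1 = 1 → Good 0 H := by decide

theorem good_other (H c u w : K) (hH : H.1 = 1) (hc : c = 0 ∨ c = H)
    (hu : (u = 0 ∧ c = H) ∨ u = H) (hw : w = 0 ∨ w = u) :
    Good u (c + w) ∧ (c + w ≠ 0 → c + w = H) := by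
  rcases hu with ⟨rfl, rfl⟩ | rfl
  · have hw0 : w = 0 := by rcases hw with h | h <;> exact h
    rw [hw0, add_zero]
    exact ⟨good_c _ hH, fun _ => rfl⟩
  · rcases hc with rfl | rfl
    · rw [zero_add]
      rcases hw with rfl | rfl
      · exact ⟨good_a _ hH, fun h => absurd rfl h⟩
      · exact ⟨good_b _ hH, fun _ => rfl⟩
    · rcases hw with rfl | rfl
      · rw [add_zero]
        exact ⟨good_b _ hH, fun _ => rfl⟩
      · rw [kk]
        exact ⟨good_a _ hH, fun h => absurd rfl h⟩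

theorem good_e : ∀ H : K, H.1 = 1 → Good H (H + 0) := by decide
theorem good_f : ∀ a : K, a.1 = 1 → Good 0 (z + a) := by decide
theorem good_h : ∀ H w : K, H.1 = 1 → (w = 0 ∨ w = H + z) → Good (H + z) (0 + w) := by decide
theorem good_h2 : ∀ H : K, H.1 = 1 → Good 0 (H + z) := by decide

/-- A critical self-dual code whose `{0, z}`-words are `0` and `z ... z` and which has a word with `z`
at one place and letters at exactly two places has length five. -/
theorem card_five {L : Submodule (ZMod 2) (V → K)} (hL : IsCode L)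
    (hz1 : (fun _ => z) ∈ L) (hz : ∀ u ∈ L, ZOnly u → u = 0 ∨ u = fun _ => z)
    (hC : Critical L) {e f g : V} (hef : e ≠ f) (heg : e ≠ g) (hfg : f ≠ g)
    {p : V → K} (hp : p ∈ L) (pe : p e = z) (pf : (p f).1 = 1) (pg : (p g).1 = 1)
    (p0 : ∀ i, i ≠ e → i ≠ f → i ≠ g → p i = 0) : Fintype.card V = 5 := by
  obtain ⟨H, hH, c, hc, c', hc', Hf, H1, Hg, cf, cf', ce, ce', cg, cg', hcc⟩ :=
    step1 hL hz1 hz hC hef heg hfg hp pe pf pg p0
  obtain ⟨h, hhe, hhf, hhg, ch, d, hd, dh, de, df, dg, hdi⟩ :=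
    step2 hL hC hef heg hfg hp pe pf pg p0 hc hc' H1 Hg cf cf' ce ce' cg cg' hcc
  have ci : ∀ i, i ≠ f → c i = 0 ∨ c i = H i := fun i hi => (or_of_cases (hcc i hi)).1
  have ue : (H + d) e = H e := by rw [Pi.add_apply, de, add_zero]
  have uf : (H + d) f = 0 := by rw [Pi.add_apply, df, Hf, add_zero]
  have ug : (H + d) g = z := by
    rw [Pi.add_apply, dg, Hg]
    exact (by decide : ∀ a : K, a + z + a = z) _
  have uh : (H + d) h = H h + z := by rw [Pi.add_apply, dh]
  have ui : ∀ i, i ≠ e → i ≠ f → i ≠ g → i ≠ h →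
      ((H + d) i = 0 ∧ c i = H i) ∨ (H + d) i = H i := fun i a1 a2 a3 a4 =>
    d_cases _ _ _ (H1 i a2) (ci i a2) (hdi i a1 a2 a3 a4)
  have hu : H + d ∈ L := L.add_mem hH hd
  obtain ⟨k, hke, hkf, hkg, hkh, uk, ck, w, hw, wk, we, wf, wg, wh, hwi⟩ :=
    step3 hL hC hef heg hfg hhe hhf hhg hp pe pf pg p0 hc hu H1 cf ce cg ch ci ue uf ug uh ui
  have hT : c + w ∈ L := L.add_mem hc hw
  have Te : (c + w) e = (H + d) e := by rw [Pi.add_apply, we, add_zero, ce, ue]
  have Tf : (c + w) f = z + p f := by rw [Pi.add_apply, cf, wf]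
  have Tg : (c + w) g = 0 := by rw [Pi.add_apply, cg, wg, add_zero]
  have good : ∀ i, i ≠ g → Good ((H + d) i) ((c + w) i) := by
    intro i a3
    by_cases a1 : i = e
    · rw [a1, ue, Pi.add_apply, we, ce]
      exact good_e _ (H1 e hef)
    by_cases a2 : i = f
    · rw [a2, uf, Tf]
      exact good_f _ pf
    by_cases a4 : i = h
    · rw [a4, uh, Pi.add_apply, ch]
      exact good_h _ _ (H1 h hhf) wh
    by_cases a5 : i = k
    · rw [a5, uk, Pi.add_apply, ck, wk]
      exact good_h2 _ (H1 k hkf)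
    · exact (good_other _ _ _ _ (H1 i a2) (ci i a2) (ui i a1 a2 a3 a4)
        (hwi i a1 a2 a3 a4 a5)).1
  have T1 := step6 hL hC hef heg hfg hp hu hT pe pf pg p0 uf ug Te Tf Tg good
  -- step 7
  have hZ : H + (c + w) + p ∈ L := L.add_mem (L.add_mem hH hT) hp
  have hZo : ZOnly (H + (c + w) + p) := by
    intro i
    have one2 : (1 : ZMod 2) + 1 = 0 := by decide
    by_cases a3 : i = g
    · rw [a3]
      show (H g).1 + ((c + w) g).1 + (p g).1 = 0
      rw [Tg, H1 g (Ne.symm hfg), pg]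
      decide
    by_cases a2 : i = f
    · rw [a2]
      show (H f).1 + ((c + w) f).1 + (p f).1 = 0
      rw [T1 f hfg, Hf, pf]
      decide
    · show (H i).1 + ((c + w) i).1 + (p i).1 = 0
      rw [H1 i a2, T1 i a3]
      by_cases a1 : i = e
      · rw [a1, pe]; decide
      · rw [p0 i a1 a2 a3]; decide
  have hall : ∀ i, (H + (c + w) + p) i = z := by
    have he : (H + (c + w) + p) e = z := by
      rw [Pi.add_apply, Pi.add_apply, Te, ue, pe]
      exact (by decide : ∀ a : K, a + a + z = z) _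
    rcases hz _ hZ hZo with x | x
    · rw [x] at he
      have h0z : (0 : K) ≠ z := by decide
      exact absurd he h0z
    · intro i
      rw [x]
  have hmem : ∀ i : V, i ∈ ({e, f, g, h, k} : Finset V) := by
    intro i
    by_contra hi
    simp only [Finset.mem_insert, Finset.mem_singleton, not_or] at hi
    obtain ⟨a1, a2, a3, a4, a5⟩ := hi
    have hT0 : (c + w) i ≠ 0 := ne0 _ (T1 i a3)
    have hTH : (c + w) i = H i :=
      (good_other _ _ _ _ (H1 i a2) (ci i a2) (ui i a1 a2 a3 a4) (hwi i a1 a2 a3 a4 a5)).2 hT0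
    have := hall i
    rw [Pi.add_apply, Pi.add_apply, hTH, p0 i a1 a2 a3] at this
    exact (by decide : ∀ a : K, a + a + 0 ≠ z) _ this
  have huniv : (Finset.univ : Finset V) = {e, f, g, h, k} := by
    ext i
    exact ⟨fun _ => hmem i, fun _ => Finset.mem_univ i⟩
  rw [← Finset.card_univ, huniv,
    Finset.card_insert_of_notMem (by simp [hef, heg, Ne.symm hhe, Ne.symm hke]),
    Finset.card_insert_of_notMem (by simp [hfg, Ne.symm hhf, Ne.symm hkf]),
    Finset.card_insert_of_notMem (by simp [Ne.symm hhg, Ne.symm hkg]),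
    Finset.card_insert_of_notMem (by simp [Ne.symm hkh]), Finset.card_singleton]

end Pool.Agent.H19.G5
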