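import Pool.Agent.H19.G5.Base

set_option autoImplicit false

/-!
Code form of the theorem on short circuits (MP_a46c6f_co): a critical self-dual code whose
`{0, z}`-words are `0` and `z ... z` and which has a word with `z` at one place and letters at exactly
two places has length five.
-/

namespace Pool.Agent.H19.G5

open Pool.Agent.H98.Code

theorem kz_left : ∀ a : K, a.1 = 1 → kf z a = 1 := by decide
theorem kz_right : ∀ a : K, kf a z = a.1 := by decide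
theorem k0_left : ∀ a : K, kf 0 a = 0 := by decide
theorem k0_right : ∀ a : K, kf a 0 = 0 := by decide
theorem k_self : ∀ a : K, kf a a = 0 := by decide
theorem k_one : ∀ a b : K, a.1 = 1 → b.1 = 1 → kf a b = 1 → a = b + z := by decide
theorem k_zero : ∀ a b : K, a.1 = 1 → b.1 = 1 → kf a b = 0 → a = b := by decide
theorem z_ne : ∀ a : K, a.1 = 1 → a ≠ z := by decide
theorem ne0 : ∀ a : K, a.1 = 1 → a ≠ 0 := by decide
theorem kadd : ∀ a b c : K, kf (a + b) c = kf a c + kf b c := by decide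
theorem kaddr : ∀ a b c : K, kf c (a + b) = kf c a + kf c b := by decide
theorem kcomm : ∀ a b : K, kf a b = kf b a := by decide
theorem letter : ∀ a : K, a ≠ z → a ≠ 0 → a.1 = 1 := by decide
theorem one_cases : ∀ a : ZMod 2, a = 0 ∨ a = 1 := by decide

variable {V : Type} [Fintype V] [DecidableEq V]

/-- `u i` is `0` or the letter `c i` -/
theorem le_zfree {a b : K} (h : a = 0 ∨ a = b) (hb : b ≠ z) : a ≠ z := by
  rcases h with h | h
  · rw [h]; decide
  · rw [h]; exact hb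

theorem or_of_cases {a b u : K} (h : (a = 0 ∧ b = u) ∨ (a = u ∧ b = 0)) :
    (a = 0 ∨ a = u) ∧ (b = 0 ∨ b = u) := by
  rcases h with ⟨h1, h2⟩ | ⟨h1, h2⟩
  · exact ⟨Or.inl h1, Or.inr h2⟩
  · exact ⟨Or.inr h1, Or.inl h2⟩

theorem or_zero {a b u : K} (h : (a = 0 ∧ b = u) ∨ (a = u ∧ b = 0)) (hu : u = 0) :
    a = 0 ∧ b = 0 := by
  rcases h with ⟨h1, h2⟩ | ⟨h1, h2⟩
  · exact ⟨h1, h2.trans hu⟩
  · exact ⟨h1.trans hu, h2⟩

/-- Step 1: the word `H` and its two halves -/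
theorem step1 {L : Submodule (ZMod 2) (V → K)} (hL : IsCode L)
    (hz1 : (fun _ => z) ∈ L) (hz : ∀ u ∈ L, ZOnly u → u = 0 ∨ u = fun _ => z)
    (hC : Critical L) {e f g : V} (hef : e ≠ f) (heg : e ≠ g) (hfg : f ≠ g)
    {p : V → K} (hp : p ∈ L) (pe : p e = z) (pf : (p f).1 = 1) (pg : (p g).1 = 1)
    (p0 : ∀ i, i ≠ e → i ≠ f → i ≠ g → p i = 0) :
    ∃ H ∈ L, ∃ c ∈ L, ∃ c' ∈ L, H f = 0 ∧ (∀ i, i ≠ f → (H i).1 = 1) ∧ H g = p g + z ∧
      c f = z ∧ c' f = z ∧ c e = H e ∧ c' e = 0 ∧ c g = 0 ∧ c' g = H g ∧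
      ∀ i, i ≠ f → (c i = 0 ∧ c' i = H i) ∨ (c i = H i ∧ c' i = 0) := by
  obtain ⟨H, hH, Hf, H1⟩ := exists_off hL hz1 hz hC f
  have hHne : H ≠ 0 := by
    intro h
    have := H1 e hef
    rw [h] at this
    simp at this
  have hHz : ZFree H := by
    intro i
    by_cases hi : i = f
    · rw [hi, Hf]; decide
    · exact z_ne _ (H1 i hi)
  obtain ⟨b, hb⟩ := hC H hH hHne hHz
  obtain ⟨c₁, hc1, c₂, hc2, hb1, hb2, hb0, hcc⟩ := Splits.cases hb
  have hbf : b = f := by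
    by_contra hne
    exact ne0 _ (H1 b hne) hb0
  subst hbf
  have main : ∀ c ∈ L, ∀ c' ∈ L, c b = z → c' b = z → c e = H e → c' e = 0 →
      (∀ i, i ≠ b → (c i = 0 ∧ c' i = H i) ∨ (c i = H i ∧ c' i = 0)) →
      ∃ H ∈ L, ∃ c ∈ L, ∃ c' ∈ L, H b = 0 ∧ (∀ i, i ≠ b → (H i).1 = 1) ∧ H g = p g + z ∧
      c b = z ∧ c' b = z ∧ c e = H e ∧ c' e = 0 ∧ c g = 0 ∧ c' g = H g ∧
      ∀ i, i ≠ b → (c i = 0 ∧ c' i = H i) ∨ (c i = H i ∧ c' i = 0) := by
    intro c hc c' hc' cb cb' ce ce' hh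
    have hpair := hL.iso c' hc' p hp
    rw [form_three c' p e b g hef heg hfg (fun i h1 h2 h3 => by rw [p0 i h1 h2 h3, k0_right]),
      ce', k0_left, cb', kz_left _ pf] at hpair
    rcases hh g (Ne.symm hfg) with ⟨h1, h2⟩ | ⟨h1, h2⟩
    · refine ⟨H, hH, c, hc, c', hc', Hf, H1, ?_, cb, cb', ce, ce', h1, h2, hh⟩
      apply k_one _ _ (H1 g (Ne.symm hfg)) pg
      rw [h2] at hpair
      rcases one_cases (kf (H g) (p g)) with h | h
      · rw [h] at hpair; exact absurd hpair (by decide)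
      · exact h
    · rw [h2, k0_left] at hpair
      exact absurd hpair (by decide)
  rcases hcc e hef with ⟨h1, h2⟩ | ⟨h1, h2⟩
  · exact main c₂ hc2 c₁ hc1 hb2 hb1 h2 h1 (fun i hi => by
      rcases hcc i hi with ⟨a1, a2⟩ | ⟨a1, a2⟩
      · exact Or.inr ⟨a2, a1⟩
      · exact Or.inl ⟨a2, a1⟩)
  · exact main c₁ hc1 c₂ hc2 hb1 hb2 h1 h2 hcc

/-- Step 2: the bridge `h` and the word `d` -/
theorem step2 {L : Submodule (ZMod 2) (V → K)} (hL : IsCode L)
    (hC : Critical L) {e f g : V} (hef : e ≠ f) (heg : e ≠ g) (hfg : f ≠ g)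
    {p : V → K} (hp : p ∈ L) (pe : p e = z) (pf : (p f).1 = 1) (pg : (p g).1 = 1)
    (p0 : ∀ i, i ≠ e → i ≠ f → i ≠ g → p i = 0)
    {H c c' : V → K} (hc : c ∈ L) (hc' : c' ∈ L) (H1 : ∀ i, i ≠ f → (H i).1 = 1)
    (Hg : H g = p g + z) (cf : c f = z) (cf' : c' f = z) (ce : c e = H e) (ce' : c' e = 0)
    (cg : c g = 0) (cg' : c' g = H g)
    (hcc : ∀ i, i ≠ f → (c i = 0 ∧ c' i = H i) ∨ (c i = H i ∧ c' i = 0)) :
    ∃ h, h ≠ e ∧ h ≠ f ∧ h ≠ g ∧ c h = 0 ∧ ∃ d ∈ L, d h = z ∧ d e = 0 ∧ d f = 0 ∧ d g = p g ∧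
      ∀ i, i ≠ e → i ≠ f → i ≠ g → i ≠ h → d i = 0 ∨ d i = c i := by
  have ke : (c + p) e = H e + z := by rw [Pi.add_apply, ce, pe]
  have kff : (c + p) f = z + p f := by rw [Pi.add_apply, cf]
  have kg : (c + p) g = p g := by rw [Pi.add_apply, cg, zero_add]
  have ki : ∀ i, i ≠ e → i ≠ f → i ≠ g → (c + p) i = c i := fun i h1 h2 h3 => by
    rw [Pi.add_apply, p0 i h1 h2 h3, add_zero]
  have ke1 : ((c + p) e).1 = 1 := by
    rw [ke, Prod.fst_add, H1 e hef]; decide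
  have kf1 : ((c + p) f).1 = 1 := by
    rw [kff, Prod.fst_add, pf]; decide
  have kg1 : ((c + p) g).1 = 1 := by rw [kg]; exact pg
  have hzf : ZFree (c + p) := by
    intro i
    by_cases h1 : i = e
    · rw [h1]; exact z_ne _ ke1
    by_cases h2 : i = f
    · rw [h2]; exact z_ne _ kf1
    by_cases h3 : i = g
    · rw [h3]; exact z_ne _ kg1
    · rw [ki i h1 h2 h3]
      exact le_zfree (or_of_cases (hcc i h2)).1 (z_ne _ (H1 i h2))
  have hne : c + p ≠ 0 := by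
    intro h
    have := kg1
    rw [h] at this
    simp at this
  obtain ⟨h, hh⟩ := hC (c + p) (L.add_mem hc hp) hne hzf
  obtain ⟨d₁, hd1, d₂, hd2, h1, h2, h0, hdd⟩ := Splits.cases hh
  have hhe : h ≠ e := by
    intro x; rw [x] at h0; exact ne0 _ ke1 h0
  have hhf : h ≠ f := by
    intro x; rw [x] at h0; exact ne0 _ kf1 h0
  have hhg : h ≠ g := by
    intro x; rw [x] at h0; exact ne0 _ kg1 h0
  have hch : c h = 0 := by rw [← ki h hhe hhf hhg]; exact h0
  have hch' : c' h = H h := by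
    rcases hcc h hhf with ⟨_, x⟩ | ⟨x, _⟩
    · exact x
    · exact absurd (x.symm.trans hch) (ne0 _ (H1 h hhf))
  have hgH : kf (p g) (H g) = 1 := by
    rw [Hg, kaddr, k_self, kz_right, pg]; decide
  -- a general statement on a half
  have pair1 : ∀ d ∈ L, d h = z → (∀ i, i ≠ h → d i = 0 ∨ d i = (c + p) i) →
      kf z (H h) + kf (d f) z + kf (d g) (H g) = 0 := by
    intro d hd dh hdi
    have hpair := hL.iso d hd c' hc'
    rw [form_three d c' h f g hhf hhg hfg, dh, hch', cf', cg'] at hpair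
    · exact hpair
    · intro i a1 a2 a3
      by_cases a4 : i = e
      · rw [a4, ce', k0_right]
      · rcases hcc i a2 with ⟨x, y⟩ | ⟨x, y⟩
        · have : d i = 0 := by
            rcases hdi i a1 with t | t
            · exact t
            · rw [t, ki i a4 a2 a3, x]
          rw [this, k0_left]
        · rw [y, k0_right]
  have main : ∀ d ∈ L, d h = z → d g = p g → d f = 0 →
      (∀ i, i ≠ h → d i = 0 ∨ d i = (c + p) i) →
      ∃ h, h ≠ e ∧ h ≠ f ∧ h ≠ g ∧ c h = 0 ∧ ∃ d ∈ L, d h = z ∧ d e = 0 ∧ d f = 0 ∧ d g = p g ∧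
      ∀ i, i ≠ e → i ≠ f → i ≠ g → i ≠ h → d i = 0 ∨ d i = c i := by
    intro d hd dh dg df hdi
    refine ⟨h, hhe, hhf, hhg, hch, d, hd, dh, ?_, df, dg, ?_⟩
    · have hpair := hL.iso d hd p hp
      rw [form_three d p e f g hef heg hfg (fun i h1 h2 h3 => by rw [p0 i h1 h2 h3, k0_right]),
        pe, kz_right, df, k0_left, dg, k_self, add_zero, add_zero] at hpair
      rcases hdi e (Ne.symm hhe) with t | t
      · exact t
      · rw [t, ke1] at hpair
        exact absurd hpair (by decide)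
    · intro i a1 a2 a3 a4
      rw [← ki i a1 a2 a3]
      exact hdi i a4
  have hz1' : kf z (H h) = 1 := kz_left _ (H1 h hhf)
  rcases hdd g (Ne.symm hhg) with ⟨x1, x2⟩ | ⟨x1, x2⟩
  · -- the half is `d₂`
    have hp1 := pair1 d₁ hd1 h1 (fun i hi => (or_of_cases (hdd i hi)).1)
    rw [x1, k0_left, hz1', kz_right] at hp1
    rcases hdd f (Ne.symm hhf) with ⟨y1, y2⟩ | ⟨y1, y2⟩
    · rw [y1] at hp1
      exact absurd hp1 (by decide)
    · exact main d₂ hd2 h2 (x2.trans kg) y2 (fun i hi => (or_of_cases (hdd i hi)).2)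
  · have hp1 := pair1 d₁ hd1 h1 (fun i hi => (or_of_cases (hdd i hi)).1)
    rw [x1, kg, hgH, hz1', kz_right] at hp1
    rcases hdd f (Ne.symm hhf) with ⟨y1, y2⟩ | ⟨y1, y2⟩
    · exact main d₁ hd1 h1 (x1.trans kg) y1 (fun i hi => (or_of_cases (hdd i hi)).1)
    · rw [y1, kf1] at hp1
      exact absurd hp1 (by decide)

end Pool.Agent.H19.G5
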